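import Pool.Agent.H773.IE.SH

/-!
# Project IE (helper773), task IE-NCPT: typical tuples of `SL(d,ℝ)` are not in a compact subgroup
-/

set_option autoImplicit false
set_option linter.style.haveILetI false

open MeasureTheory Set Filter Topology
open scoped ENNReal

namespace Pool.Agent.H278.IE.NCPT

open Pool.Agent.H773.IE

section alg

variable {d : ℕ}

theorem cont_coe : Continuous (fun g : SLR d => (g : Matrix (Fin d) (Fin d) ℝ)) :=
  continuous_subtype_val

theorem single_smul (i j : Fin d) (t : ℝ) :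
    Matrix.single i j t = t • (Matrix.single i j 1 : Matrix (Fin d) (Fin d) ℝ) := by
  rw [Matrix.smul_single, smul_eq_mul, mul_one]

/-- linear functionals along transvections -/
theorem lin_right (L : Matrix (Fin d) (Fin d) ℝ →ₗ[ℝ] ℝ) (g : SLR d) (i j : Fin d) (hij : i ≠ j)
    (t : ℝ) :
    L ((g * Matrix.SpecialLinearGroup.transvection hij t : SLR d) : Matrix (Fin d) (Fin d) ℝ) =
      L (g : Matrix (Fin d) (Fin d) ℝ) +
        t * L ((g : Matrix (Fin d) (Fin d) ℝ) * Matrix.single i j 1) := by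
  rw [Matrix.SpecialLinearGroup.coe_mul, Matrix.SpecialLinearGroup.transvection_coe, mul_add,
    mul_one, map_add, single_smul, Matrix.mul_smul, map_smul, smul_eq_mul]

theorem lin_left (L : Matrix (Fin d) (Fin d) ℝ →ₗ[ℝ] ℝ) (g : SLR d) (i j : Fin d) (hij : i ≠ j)
    (t : ℝ) :
    L (((g * Matrix.SpecialLinearGroup.transvection hij t)⁻¹ : SLR d) :
        Matrix (Fin d) (Fin d) ℝ) =
      L ((g⁻¹ : SLR d) : Matrix (Fin d) (Fin d) ℝ) -
        t * L (Matrix.single i j 1 * ((g⁻¹ : SLR d) : Matrix (Fin d) (Fin d) ℝ)) := by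
  rw [mul_inv_rev, Matrix.SpecialLinearGroup.transvection_inv,
    Matrix.SpecialLinearGroup.coe_mul, Matrix.SpecialLinearGroup.transvection_coe, add_mul,
    one_mul, map_add, single_smul, Matrix.smul_mul, map_smul, smul_eq_mul, neg_mul, sub_eq_add_neg]

/-- the difference of the traces of `g` and `g⁻¹` -/
noncomputable def ftr (g : SLR d) : ℝ :=
  Matrix.trace (g : Matrix (Fin d) (Fin d) ℝ) -
    Matrix.trace ((g⁻¹ : SLR d) : Matrix (Fin d) (Fin d) ℝ)

theorem cont_ftr : Continuous (ftr : SLR d → ℝ) := by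
  unfold ftr
  exact (cont_coe.matrix_trace).sub ((cont_coe.comp continuous_inv).matrix_trace)

theorem poly_ftr (g : SLR d) (i j : Fin d) (hij : i ≠ j) : ∃ p : Polynomial ℝ, ∀ t : ℝ,
    ftr (g * Matrix.SpecialLinearGroup.transvection hij t) = p.eval t := by
  have h1 := lin_right (Matrix.traceLinearMap (Fin d) ℝ ℝ) g i j hij
  have h2 := lin_left (Matrix.traceLinearMap (Fin d) ℝ ℝ) g i j hij
  simp only [Matrix.traceLinearMap_apply] at h1 h2
  refine ⟨Polynomial.C (Matrix.trace (g : Matrix (Fin d) (Fin d) ℝ) -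
      Matrix.trace ((g⁻¹ : SLR d) : Matrix (Fin d) (Fin d) ℝ)) +
    Polynomial.C (Matrix.trace ((g : Matrix (Fin d) (Fin d) ℝ) * Matrix.single i j 1) +
      Matrix.trace (Matrix.single i j 1 * ((g⁻¹ : SLR d) : Matrix (Fin d) (Fin d) ℝ))) *
      Polynomial.X, fun t => ?_⟩
  rw [ftr, h1, h2]
  simp only [Polynomial.eval_add, Polynomial.eval_mul, Polynomial.eval_C, Polynomial.eval_X]
  ring

theorem exists_ftr (k : ℕ) : ∃ g : SLR (k + 3), ftr g ≠ 0 := by
  set a : Fin (k + 3) → ℝ := Fin.cons 2 (Fin.cons 2 (Fin.cons (1 / 4) fun _ => 1)) with ha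
  set b : Fin (k + 3) → ℝ := Fin.cons (1 / 2) (Fin.cons (1 / 2) (Fin.cons 4 fun _ => 1)) with hb
  have hda : (Matrix.diagonal a).det = 1 := by
    rw [Matrix.det_diagonal, Fin.prod_univ_succ, Fin.prod_univ_succ, Fin.prod_univ_succ, ha]
    simp only [Fin.cons_zero, Fin.cons_succ, Finset.prod_const_one]
    norm_num
  have hdb : (Matrix.diagonal b).det = 1 := by
    rw [Matrix.det_diagonal, Fin.prod_univ_succ, Fin.prod_univ_succ, Fin.prod_univ_succ, hb]
    simp only [Fin.cons_zero, Fin.cons_succ, Finset.prod_const_one]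
    norm_num
  have hab : ∀ i, a i * b i = 1 := by
    intro i
    refine Fin.cases ?_ (fun i => ?_) i
    · rw [ha, hb, Fin.cons_zero, Fin.cons_zero]; norm_num
    refine Fin.cases ?_ (fun i => ?_) i
    · rw [ha, hb, Fin.cons_succ, Fin.cons_succ, Fin.cons_zero, Fin.cons_zero]; norm_num
    refine Fin.cases ?_ (fun i => ?_) i
    · rw [ha, hb, Fin.cons_succ, Fin.cons_succ, Fin.cons_succ, Fin.cons_succ, Fin.cons_zero,
        Fin.cons_zero]; norm_num
    · rw [ha, hb, Fin.cons_succ, Fin.cons_succ, Fin.cons_succ, Fin.cons_succ, Fin.cons_succ,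
        Fin.cons_succ]; norm_num
  have hinv : (dgm a hda)⁻¹ = dgm b hdb := by
    refine inv_eq_of_mul_eq_one_right ?_
    apply Subtype.ext
    show Matrix.diagonal a * Matrix.diagonal b = 1
    rw [Matrix.diagonal_mul_diagonal, ← Matrix.diagonal_one]
    congr 1
    funext i
    exact hab i
  refine ⟨dgm a hda, ?_⟩
  unfold ftr
  rw [hinv]
  show Matrix.trace (Matrix.diagonal a) - Matrix.trace (Matrix.diagonal b) ≠ 0
  rw [Matrix.trace_diagonal, Matrix.trace_diagonal, Fin.sum_univ_succ, Fin.sum_univ_succ,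
    Fin.sum_univ_succ, Fin.sum_univ_succ, Fin.sum_univ_succ, Fin.sum_univ_succ, ha, hb]
  simp only [Fin.cons_zero, Fin.cons_succ]
  intro h
  have h1 : (2 + (2 + (1 / 4 + ∑ _i : Fin k, (1 : ℝ)))) -
    (1 / 2 + (1 / 2 + (4 + ∑ _i : Fin k, (1 : ℝ)))) = -3 / 4 := by ring
  rw [h1] at h
  norm_num at h

/-- the entry `(i₀, j₀)` -/
theorem poly_entry (L : Matrix (Fin d) (Fin d) ℝ →ₗ[ℝ] ℝ) (g : SLR d) (i j : Fin d)
    (hij : i ≠ j) : ∃ p : Polynomial ℝ, ∀ t : ℝ,
    L ((g * Matrix.SpecialLinearGroup.transvection hij t : SLR d) : Matrix (Fin d) (Fin d) ℝ) =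
      p.eval t := by
  refine ⟨Polynomial.C (L (g : Matrix (Fin d) (Fin d) ℝ)) +
    Polynomial.C (L ((g : Matrix (Fin d) (Fin d) ℝ) * Matrix.single i j 1)) * Polynomial.X,
    fun t => ?_⟩
  rw [lin_right]
  simp only [Polynomial.eval_add, Polynomial.eval_mul, Polynomial.eval_C, Polynomial.eval_X]
  ring

/-- entries of matrices as linear functionals -/
noncomputable def ent (i j : Fin d) : Matrix (Fin d) (Fin d) ℝ →ₗ[ℝ] ℝ :=
  Matrix.entryLinearMap ℝ ℝ i j

theorem ent_apply (i j : Fin d) (A : Matrix (Fin d) (Fin d) ℝ) : ent i j A = A i j := rfl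

end alg

theorem t_ncpt (htop : S_top) (hnull : S_null) (htrc : S_trc) (hcomm : S_comm2) : S_ncpt := by
  intro d hd n hn _ _ μ _
  haveI := (htop d).1
  haveI := (htop d).2.1
  haveI := (htop d).2.2
  obtain ⟨m, rfl⟩ := Nat.exists_eq_add_of_le' hn
  rcases Nat.lt_or_ge 2 d with hd3 | hd2
  · -- `d ≥ 3`: traces
    obtain ⟨k, rfl⟩ := Nat.exists_eq_add_of_le' (show 3 ≤ d from hd3)
    have h1 := hnull (k + 3) hd μ ftr cont_ftr poly_ftr (exists_ftr k)
    have h2 : ∀ᵐ g ∂μ, ftr g ≠ 0 := by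
      rw [ae_iff]
      simpa only [ne_eq, not_not] using h1
    have h3 : ∀ᵐ a ∂(Measure.pi fun _ : Fin (m + 2) => μ), ftr (a 0) ≠ 0 :=
      (Measure.tendsto_eval_ae_ae (μ := fun _ : Fin (m + 2) => μ) (i := 0)).eventually h2
    filter_upwards [h3] with a ha
    rintro ⟨K, hK, haK⟩
    apply ha
    rw [ftr, htrc _ K hK (a 0) (haK 0), sub_self]
  · -- `d = 2`: commutators
    obtain rfl : d = 2 := le_antisymm hd2 hd
    have h01 : (0 : Fin 2) ≠ 1 := by decide
    have h10 : (1 : Fin 2) ≠ 0 := by decide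
    -- the matrices with upper right entry `0`
    have h1 := hnull 2 hd μ (fun g : SLR 2 => ent 0 1 (g : Matrix (Fin 2) (Fin 2) ℝ))
      ((LinearMap.continuous_of_finiteDimensional _).comp cont_coe)
      (fun g i j hij => poly_entry (ent 0 1) g i j hij)
      ⟨Matrix.SpecialLinearGroup.transvection h01 1, by
        rw [ent_apply, Matrix.SpecialLinearGroup.transvection_coe]
        simp⟩
    have h2 : ∀ᵐ g : SLR 2 ∂μ, (g : Matrix (Fin 2) (Fin 2) ℝ) 0 1 ≠ 0 := by
      rw [ae_iff]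
      simpa only [ne_eq, not_not, ent_apply] using h1
    -- commuting pairs
    have h3 : ∀ x : SLR 2, (x : Matrix (Fin 2) (Fin 2) ℝ) 0 1 ≠ 0 →
        ∀ᵐ y ∂μ, x * y ≠ y * x := by
      intro x hx
      set L : Matrix (Fin 2) (Fin 2) ℝ →ₗ[ℝ] ℝ := (x : Matrix (Fin 2) (Fin 2) ℝ) 0 1 • ent 1 0 -
          (x : Matrix (Fin 2) (Fin 2) ℝ) 1 0 • ent 0 1 with hL
      have h4 := hnull 2 hd μ (fun g : SLR 2 => L (g : Matrix (Fin 2) (Fin 2) ℝ))
        ((LinearMap.continuous_of_finiteDimensional _).comp cont_coe)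
        (fun g i j hij => poly_entry L g i j hij)
        ⟨Matrix.SpecialLinearGroup.transvection h10 1, by
          rw [hL, LinearMap.sub_apply, LinearMap.smul_apply, LinearMap.smul_apply, ent_apply,
            ent_apply, Matrix.SpecialLinearGroup.transvection_coe]
          simpa using hx⟩
      rw [ae_iff]
      refine measure_mono_null ?_ h4
      intro y hy
      have hxy : x * y = y * x := by
        by_contra h
        exact hy h
      show L (y : Matrix (Fin 2) (Fin 2) ℝ) = 0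
      rw [hL, LinearMap.sub_apply, LinearMap.smul_apply, LinearMap.smul_apply, ent_apply,
        ent_apply, smul_eq_mul, smul_eq_mul]
      have h5 := congrArg (fun g : SLR 2 => (g : Matrix (Fin 2) (Fin 2) ℝ) 0 0) hxy
      simp only [Matrix.SpecialLinearGroup.coe_mul, Matrix.mul_apply, Fin.sum_univ_two] at h5
      linarith
    -- Fubini
    have h6 : ∀ᵐ p ∂(μ.prod (Measure.pi fun _ : Fin (m + 1) => μ)),
        p.1 * p.2 0 ≠ p.2 0 * p.1 := by
      have hms : MeasurableSet {p : SLR 2 × (Fin (m + 1) → SLR 2) | p.1 * p.2 0 ≠ p.2 0 * p.1} := by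
        have h7 : IsClosed {p : SLR 2 × SLR 2 | p.1 * p.2 = p.2 * p.1} :=
          isClosed_eq (continuous_fst.mul continuous_snd) (continuous_snd.mul continuous_fst)
        have h8 : Measurable (fun p : SLR 2 × (Fin (m + 1) → SLR 2) => (p.1, p.2 0)) :=
          measurable_fst.prodMk ((measurable_pi_apply 0).comp measurable_snd)
        exact (h8 h7.measurableSet).compl
      rw [Measure.ae_prod_iff_ae_ae hms]
      filter_upwards [h2] with x hx
      exact (Measure.tendsto_eval_ae_ae (μ := fun _ : Fin (m + 1) => μ) (i := 0)).eventually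
        (h3 x hx)
    have h9 := (measurePreserving_piFinSuccAbove (fun _ : Fin (m + 2) => μ)
      0).quasiMeasurePreserving.ae h6
    filter_upwards [h9] with a ha
    rintro ⟨K, hK, haK⟩
    apply ha
    exact hcomm K hK _ (haK _) _ (haK _)

end Pool.Agent.H278.IE.NCPT
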